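import Pool.Agent.H7.HZ.Stmts
import Pool.Agent.H7.GX.Stmts

/-!
# Triangles, all residues `r > (ω - 1) / 3`, `r ≤ ω - 4`: board `jb` (MP_fd41b2_co)

`b = p + 3 = ω - 1`, `Δ = (p + 3) a + r`, `PrG p r`: `b < 3 r`, `r ≤ b - 3`. The theorem of the board `hz` (same
extremal graph, same `kx`) without the hypothesis `b ≤ 2 r`. Row `XXX` = `def XXXStmt : Prop`; file
`Pool/Agent/H<k>/JB/XXX.lean`, `import Pool.Agent.H7.JB.Stmts`, namespace `Pool.JB7`, `open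
Pool.Agent.H23.KT Pool.Agent.H46.KW Pool.KQ Pool.GT7 Pool.GU7 Pool.HZ7`. NEW compared with `hz`: an exceptional
vertex `z` of `N(v)` may owe `ndz` to `v`; as in the boards `gu8`, `gx10` a vertex which is not good pays
(BDG, BUG), two good strangers owe nothing (GGG). The rows `XXXW` are rows of `hz` with `PrW` in place of `PrZ`.
-/

set_option autoImplicit false

open Finset

namespace Pool.JB7

open Pool.Agent.H23.KT Pool.Agent.H46.KW Pool.KQ Pool.GT7 Pool.GU7 Pool.HZ7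

/-- The conditions of the theorem: `b < 3 r`, `r ≤ b - 3` (so `p ≥ 2`, `r ≥ 2`). -/
structure PrG (p r : ℕ) : Prop where
  gr : p + 3 < 3 * r
  rp : r ≤ p

/-- Weak conditions. -/
structure PrW (p r : ℕ) : Prop where
  p2 : 2 ≤ p
  r1 : 1 ≤ r
  rp : r ≤ p

/-- The bonus of an exceptional vertex. -/
noncomputable def s2 (p : ℕ) : ℝ := e1 p / (256 * ((p : ℝ) + 3) ^ 2)

/-- What the exceptional vertex `z` owes. -/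
noncomputable def ndz {V : Type} (G : SimpleGraph V) (p r a : ℕ) (X : Finset V) (z : V) : ℝ :=
  max 0 (((nb G X z).card : ℝ) - ((p : ℝ) + 2) * (1 - ph p r) * a - Mz p r a * TZ G p r X z +
    s2 p * a)

/-! ### Local -/

/-- (GCG) Numbers. `φ = ph`, `slack B = (b-1)(1-φ) + φ (b-1) ww B - B`. PROOF. `φ = (b-r)/(2r) < 1` iff `b < 3 r`; `(b-1)(1-φ) = (b-1)(3r-b)/
(2r) ≥ (b-1)/(2r) > 1/2`. (2) `2 r slack B - (b-1-B)(B + r - (b-2))`: from GC8 (1) (its proof does not use `4 r ≤ b`): `(b-1-B)(B - 2(r-1)) ≤ (b-r)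
((b-1) ww - B)`, times `φ · 2r/(b-r) = 1`, plus `2 r (1-φ)(b-1-B) = (3r-b)(b-1-B)`. (3) `b - 1 - 3 B + 2 ((b-1)(1-φ) + φ (b-1) ww)`: with `q = B + 1`: for `q ≥ r` it is
`(b-q)(3q-b+1)/q`, the numerator is concave, `≥ 6` at `q = r` and `q = b - 1`; for `q ≤ r` (`ww = 0`) it is decreasing in `B` and has the same value at
`q = r`. -/
def GCGStmt : Prop :=
  ∀ p r : ℕ, PrG p r → PrW p r ∧ 0 < ph p r ∧ ph p r < 1 ∧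
    1 / 2 < ((p : ℝ) + 2) * (1 - ph p r) ∧
    (∀ B ≤ p + 2, ((p : ℝ) + 2 - B) * (B + r - (p + 1)) ≤
      2 * r * (((p : ℝ) + 2) * (1 - ph p r) + ph p r * ((p : ℝ) + 2) * ww p r B - B)) ∧
    (∀ B ≤ p + 1, 3 * (B : ℝ) + 1 / ((p : ℝ) + 3) ≤
      ((p : ℝ) + 2) + 2 * (((p : ℝ) + 2) * (1 - ph p r) + ph p r * ((p : ℝ) + 2) * ww p r B))

/-- (REG) `Pool.HZ7.REFStmt` without `nlow`, with more information. PROOF as there: `P' i` = the `y ∈ P i` with `card (non G (P k) y) ≤ f a` for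
all `k ≠ i`, `U' = W \ un P'`; a `z ∈ U' \ U` is in some `P i` (`Str.mis`, `Par.ind`). -/
def REGStmt : Prop :=
  ∀ (p : ℕ) (f C : ℝ), 0 < f → 0 < C → ∃ C' : ℝ, 0 < C' ∧ ∀ e : ℝ, 0 < e → e ≤ 1 / 8 →
    ∃ a₀ : ℕ, ∀ a ≥ a₀, ∀ {V : Type} [DecidableEq V] (G : SimpleGraph V) (W : Finset V)
    (P : Fin (p + 3) → Finset V) (U : Finset V), Str G p a e C W P U →
    ∃ (P' : Fin (p + 3) → Finset V) (U' : Finset V), Stq G p a (2 * e) f C C' W P' U' ∧ U ⊆ U' ∧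
      (∀ i, P' i ⊆ P i) ∧ ∀ z ∈ U' \ U, ∃ i, (∀ k, k ≠ i →
        ((non G (P' k) z).card : ℝ) ≤ e1 p * a) ∧ ∀ y ∈ P' i, ¬ G.Adj z y

/-- (ZSM) A vertex with a moderate number of missing pairs owes nothing. Needs GCG, EXB, TRV, BRK. PROOF. `b = p + 3`, `X = un P`, `B = card (nb G
L z)`, `J = b - 1 - B` = number of the elements of `L` outside `P i` which are nonneighbours of `z` (`L` has exactly one element in `P i`, a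
nonneighbour). GCG (2): `2 r slack ≥ J (r + 1 - J) = r J - J (J-1)`. For a nonneighbour `x ∈ P k`, `k ≠ i`, of `z`: the number of `L ∋ x` is `≥ (1 - e -
b f)^(b-1) a^(b-1) ≥ a^(b-1)/2` (greedy; `f, e ≤ 1/(8 b)`.. or BRK (3), Bernoulli), and `∑_(L ∋ x) (J - 1) ≤ b e1 a ((1+e) a)^(b-2)`. So `∑ J (J-1) ≤ 2 b e1
(1+e)^(b-2) ∑ J ≤ ∑ J ≤ r ∑ J`, so `∑_L slack ≥ 0`. Then as in ZSU (`Pool.HZ7`): EXB (`j = 1`), `N ≤ ((1+e) a)^b`. -/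
def ZSMStmt : Prop :=
  ∀ p r : ℕ, PrG p r → ∀ δ : ℝ, 0 < δ → ∃ e₀ : ℝ, 0 < e₀ ∧ e₀ ≤ 1 / (64 * ((p : ℝ) + 3) ^ 2) ∧
    ∀ C : ℝ, 0 < C → ∃ a₀ : ℕ, ∀ a ≥ a₀, ∀ {V : Type} [DecidableEq V] (G : SimpleGraph V)
    (e f C' : ℝ) (W : Finset V) (P : Fin (p + 3) → Finset V) (U : Finset V), 0 ≤ e → e ≤ e₀ →
    f ≤ 1 / (64 * ((p : ℝ) + 3) ^ 2) → Stq G p a e f C C' W P U → CB G W (p + 3) →
    ∀ z ∈ W, ∀ i, (∀ k, k ≠ i → ((non G (P k) z).card : ℝ) ≤ e1 p * a) →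
    (∀ y ∈ P i, ¬ G.Adj z y) →
    ((nb G (un P) z).card : ℝ) ≤
      ((p : ℝ) + 2) * (1 - ph p r) * a + Mz p r a * TZ G p r (un P) z + δ * a

/-- (LOG) The local inequality with debts. Needs GCG, MLG, EDU, SPX, ZSM, TRV. PROOF. As `Pool.HZ7.LOQStmt`: `df ≥ x (b-1) a - (r+x)^2 + tot/2 - ∑_(z ∈ U)
n_z - C'^2`; for `z ∈ U₀`: `n_z ≤ (b-1)(1-φ) a + Mz TZ - s2 a + ndz` (definition of `ndz`), for `z ∈ U \ U₀`: ZSM with `δ = ε/(8 C')`. The rest is the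
same; `(1-φ)(b-1) ≥ 1/2`. (`f ≤ 1/(64 b^2)` too.) -/
def LOGStmt : Prop :=
  ∀ p r : ℕ, PrG p r → ∀ C ε : ℝ, 0 < C → 0 < ε → ∃ f : ℝ, 0 < f ∧ f ≤ 1 ∧ ∀ C' : ℝ, 0 < C' →
    ∃ e₀ : ℝ, 0 < e₀ ∧ e₀ ≤ 1 / 2 ∧ ∃ a₀ : ℕ, ∀ a ≥ a₀, ∀ {V : Type} [DecidableEq V]
    (G : SimpleGraph V) (e : ℝ) (W : Finset V) (P : Fin (p + 3) → Finset V) (U U₀ : Finset V),
    0 ≤ e → e ≤ e₀ → Stq G p a e f C C' W P U → U₀ ⊆ U →
    (∀ z ∈ U \ U₀, ∃ i, (∀ k, k ≠ i → ((non G (P k) z).card : ℝ) ≤ e1 p * a) ∧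
      ∀ y ∈ P i, ¬ G.Adj z y) →
    CB G W (p + 3) → W.card ≤ (p + 3) * a + r →
    (((p + 3) * a + r : ℕ) : ℝ) ≤ W.card + C' →
    Mz p r a * ∑ L ∈ clq G W (p + 3), min (r : ℝ) (XX G p r a W L) +
        (a : ℝ) / 2 * ((((p + 3) * a + r : ℕ) : ℝ) - W.card) + s2 p * a * U₀.card ≤
      df G p 0 r a W + ∑ z ∈ U₀, ndz G p r a (un P) z + ε * a

/-- (NDC) The debt changes little. PROOF. `n_z` is monotone; the `L ∈ clq G (un P) b` which are not in `un P'` number `≤ C' (card (un P))^(b-1) ≤ C' (2 b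
a)^(b-1)`, `0 ≤ ww ≤ 1` (GCO0 (1), `B ≤ p + 2`), `Mz (2 b a)^(b-1)` is bounded; `max` is 1-Lipschitz. Needs GCO0. -/
def NDCStmt : Prop :=
  ∀ p r : ℕ, PrG p r → ∀ C' : ℝ, 0 < C' → ∃ K : ℝ, 0 < K ∧ ∀ a : ℕ, 1 ≤ a →
    ∀ {V : Type} [DecidableEq V] (G : SimpleGraph V) (P P' : Fin (p + 3) → Finset V) (z : V),
    (∀ i, P' i ⊆ P i) → (∀ i, (P i).card ≤ 2 * a) → ((un P \ un P').card : ℝ) ≤ C' →
    (∀ L ∈ clq G (un P) (p + 3), (nb G L z).card ≤ p + 2) →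
    ndz G p r a (un P') z ≤ ndz G p r a (un P) z + K

/-- (NDG) A vertex with many neighbours owes nothing. Needs GCG, PRF, CCK0 (1), GCO0. PROOF (as `Pool.GX7.NDMXStmt`). `μ = n_z/a`, `β = b - 2 - r`. GCG (2), PRF
(1)-(3): `2 r ∑ slack ≥ ∑ (b-1-B)(B-β) ≥ a^b [(b-1-μ)(μ (b-2)/(b-1) - β) - K ε]`, PRF (7): `b - 1 - μ ≥ e1/8`; `μ ≥ b - 1 - 25/12 - ..`: `μ ≥ p - 1/12 = (b-1) -
25/12`, so `μ (b-2)/(b-1) - β ≥ r - (25/12)(b-2)/(b-1) ≥ 7/16` (`r ≥ 3`, or `r = 2`, `b = 5`). So `∑ slack ≥ (7 e1/(256 r) - K ε) a^b ≥ 2 s2 a^b`, and `n_z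
a^(b-1) ≤ ∑ B + ε a^b = ∑ ((b-1)(1-φ) + φ (b-1) ww) - ∑ slack + ε a^b`: `ndz = 0` for `ε` small. -/
def NDGStmt : Prop :=
  ∀ p r : ℕ, PrG p r → ∃ e₀ : ℝ, 0 < e₀ ∧ ∀ C : ℝ, ∃ a₀ : ℕ, ∀ a ≥ a₀,
    ∀ {V : Type} [DecidableEq V] (G : SimpleGraph V) (e : ℝ) (W : Finset V)
    (P : Fin (p + 3) → Finset V) (U : Finset V), Str G p a e C W P U → 0 ≤ e → e ≤ e₀ →
    CB G W (p + 3) → ∀ z ∈ U,
    ((p : ℝ) - 1 / 12) * a ≤ ((nb G (un P) z).card : ℝ) → ndz G p r a (un P) z = 0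

/-- (NBG) What is owed is less than the loss. Needs GCG, PRF, CCK0 (1), GCO0. PROOF (as `NDBXStmt`). GCG (3) for `B ≤ p + 1`, equality `3 B = (b-1) + 2 (..)` for
`B = p + 2`: `∑ (3 B - 2 (..)) ≤ (b-1) N - (1/b) #{B ≤ p+1}`, `#{B = p+2} ≤ ∑ B/(p+2) ≤ (p/(p+2) + ε) a^b`, so `#{B ≤ p+1} ≥ a^b/b` (`2/(b-1) > 1/b`). If `ndz > 0`:
`2 ndz + κ = 3 κ - 2 (..) a + 2 s2 a`, `κ = n_z` (`kc _ 1`), `≤ (b - 1 - 1/b^2 + 2 s2 + K ε) a`. -/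
def NBGStmt : Prop :=
  ∀ p r : ℕ, PrG p r → ∃ e₀ : ℝ, 0 < e₀ ∧ ∀ C : ℝ, ∃ a₀ : ℕ, ∀ a ≥ a₀,
    ∀ {V : Type} [DecidableEq V] (G : SimpleGraph V) (e : ℝ) (W : Finset V)
    (P : Fin (p + 3) → Finset V) (U : Finset V), Str G p a e C W P U → 0 ≤ e → e ≤ e₀ →
    CB G W (p + 3) → ∀ z ∈ U, ((nb G (un P) z).card : ℝ) ≤ (p : ℝ) * a →
    0 < ndz G p r a (un P) z →
    2 * ndz G p r a (un P) z + (nb G (un P) z).card ≤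
      ((p : ℝ) + 2 - 1 / (4 * ((p : ℝ) + 3) ^ 2)) * (a : ℝ)

/-- (BDG) `Pool.GX7.BDAXStmt` with `p a` in place of `m9 p a`. Needs ZYG, TTR (3). PROOF. As there (file `Pool/Agent/H*/GX/BDAX.lean`) with `d = (b - 2 + 1/(4
b^2)) a`: for `y ∈ Y`: `card (nb G W y) ≤ (p + 1 + 2 b e1) a + r ≤ d` (`2 b e1 = 1/(8 b^2)`), and at the end `d (1 + 1/b) ≤ (b-1) a ≤ c`, as `(b-2)(b+1) =
b^2 - b - 2`. -/
def BDGStmt : Prop :=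
  ∀ p r : ℕ, PrW p r → ∃ K : ℝ, 0 < K ∧ ∀ δ C : ℝ, 0 < δ → ∃ a₀ : ℕ, ∀ a ≥ a₀,
    ∀ {V : Type} [Fintype V] [DecidableEq V] (G : SimpleGraph V), G8 G p r a →
    ∀ (z : V) (A : Finset V), A ⊆ nb G univ z →
    (∀ v ∈ A, ∃ (e : ℝ) (P : Fin (p + 3) → Finset V) (U : Finset V),
      Str G p a e C (nb G univ v) P U ∧ 0 ≤ e ∧ e ≤ e1 p ∧
      ((Pool.KR.co G v z).card : ℝ) ≤ (p : ℝ) * a) →
    ∑ v ∈ A, (((p : ℝ) + 2) * (a : ℝ) - (kc G (Pool.KR.co G v z) 1 : ℝ)) ≤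
      2 * df G p 0 r a (nb G univ z) + K * (a : ℝ) + δ * A.card * (a : ℝ)

/-- (BUG) A vertex which is not good can pay (as `Pool.GX7.BUDXStmt`). Needs GCG, NDG, NBG, BDG. -/
def BUGStmt : Prop :=
  ∀ p r : ℕ, PrG p r → ∀ C₀ : ℝ, 0 < C₀ → ∃ C₂ : ℝ, 0 < C₂ ∧ ∃ e₀ : ℝ, 0 < e₀ ∧ e₀ ≤ e1 p ∧
    ∀ C : ℝ, ∃ a₀ : ℕ, ∀ a ≥ a₀,
    ∀ {V : Type} [Fintype V] [DecidableEq V] (G : SimpleGraph V), G8 G p r a →
    ∀ (e : ℝ), 0 ≤ e → e ≤ e₀ → ∀ (z : V) (A : Finset V)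
    (P : V → Fin (p + 3) → Finset V) (U : V → Finset V), A ⊆ nb G univ z →
    (∀ v ∈ A, Str G p a e C (nb G univ v) (P v) (U v) ∧ z ∈ U v) →
    C₂ * a ≤ df G p 0 r a (nb G univ z) →
    ∑ v ∈ A, ndz G p r a (un (P v)) z ≤ df G p 0 r a (nb G univ z) - C₀ * a

/-- (GGG) Two good strangers owe nothing. Needs GCG, STG (`Pool.KR.STGStmt`), CCK0 (4), PrG. PROOF. `GGP_stg`, `GGP_core` (`Pool/Agent/H67/GU/GGP.lean`;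
`(b+1) a + r < 2 (b-1)(1 - e - e1) a` as `b ≥ 5`): `co G v z ⊆ U ∪ U'`, so `n_z ≤ card (co G v z) ≤ 2 C`, and `(b-1)(1-φ) a ≥ a/2 ≥ 2 C + s2 a` (`TZ ≥ 0`). -/
def GGGStmt : Prop :=
  ∀ p r : ℕ, PrG p r → ∃ e₀ : ℝ, 0 < e₀ ∧ e₀ ≤ e1 p / 2 ∧ ∀ (C : ℝ) (C₁ : ℕ), ∃ a₀ : ℕ,
    ∀ a ≥ a₀, ∀ {V : Type} [Fintype V] [DecidableEq V] (G : SimpleGraph V), G8 G p r a →
    ∀ (e : ℝ), 0 ≤ e → e ≤ e₀ → ∀ (v z : V) (P P' : Fin (p + 3) → Finset V) (U U' : Finset V),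
    Str G p a e C (nb G univ v) P U → Str G p a e C (nb G univ z) P' U' → z ∈ U →
    a ^ (p + 4) ≤ (a + C₁) * kc G (nb G univ z) (p + 3) →
    ndz G p r a (un P) z = 0

open Classical in
/-- (WLG) The local inequality for a good vertex (as the second part of `Pool.HZ7.WSVStmt`). Needs GCG, STC, MMC, REG, LOG, NDC, CCK0 (1), TTR (3), ZYG. PROOF. STC
with `e' = min e ..`; REG with the `f` of LOG (`C`, `ε/2`) gives `P'`, `U'`; LOG with `U₀ = U`, `C'` large; NDC for the `z ∈ U` (`card (un P \ un P') ≤ C'`, CCK0 (1)):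
`∑_(z ∈ U) ndz (un P') ≤ ∑ ndz (un P) + C K`. `c = s2 p` (`≤ 1/2`). -/
def WLGStmt : Prop :=
  ∀ p r : ℕ, PrG p r → ∃ c : ℝ, 0 < c ∧ c ≤ 1 ∧ ∀ C₂ : ℝ, 0 < C₂ → ∃ (C : ℝ) (C₁ : ℕ), 0 < C ∧
    ∀ ε e : ℝ, 0 < ε → 0 < e → e ≤ 1 / 8 → ∃ a₀ : ℕ, ∀ a ≥ a₀,
    ∀ {V : Type} [Fintype V] [DecidableEq V] (G : SimpleGraph V), G8 G p r a → ∀ v : V,
    df G p 0 r a (nb G univ v) < C₂ * a →
    ∃ (P : Fin (p + 3) → Finset V) (U : Finset V), Str G p a e C (nb G univ v) P U ∧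
      a ^ (p + 4) ≤ (a + C₁) * kc G (nb G univ v) (p + 3) ∧
      Mz p r a * ∑ L ∈ clq G (nb G univ v) (p + 3), min (r : ℝ) (XX G p r a (nb G univ v) L) -
          Mz p r a * ((r : ℝ) / ((p : ℝ) + 4)) * kc G (nb G univ v) (p + 3) + lz p r * a +
          (if U = ∅ ∧ (nb G univ v).card = (p + 3) * a + r then 0 else c * a) ≤
        df G p 0 r a (nb G univ v) + ∑ z ∈ U, ndz G p r a (un P) z + ε * a

/-- (WGG) `Pool.HZ7.WSGStmt` for `PrG`. Needs GCG, WLG, BUG, GGG, PHI0, GCO0. PROOF. `C₀ = 2^b (b-1) ph r + lz + c + 1` (bound of `Mz ∑ min + lz a + c a`, by `kc ≤ (a+1)^b`), `C₂` from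
BUG, `C`, `C₁` from WLG, `e' = min e ..`. `Gd` = the `v` with `df < C₂ a`, with `P v`, `U v` from WLG. Sum WLG over `Gd`; the debts to `z ∈ Gd` are `0` (GGG); for
`z ∉ Gd`, `A = {v ∈ Gd : z ∈ U v}`, BUG: debts `≤ df z - C₀ a ≤ df z - (Mz ∑ min + lz a + c a)`. So `∑_v (Mz ∑ min - Mz (r/(b+1)) kc + lz a) + c a #{not clean} ≤ ∑
df + ε' a m` and PHI0 as in WSG. -/
def WGGStmt : Prop :=
  ∀ p r : ℕ, PrG p r → ∃ C : ℝ, 0 < C ∧ ∀ ε e K : ℝ, 0 < ε → 0 < e → e ≤ 1 / 8 →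
    ∃ a₀ : ℕ, ∀ a ≥ a₀, ∀ {V : Type} [Fintype V] [DecidableEq V] (G : SimpleGraph V),
    G8 G p r a →
    ∑ v, df G p 0 r a (nb G univ v) ≤ (lz p r * a + K) * Fintype.card V →
    ∃ (D : Finset V) (P : V → Fin (p + 3) → Finset V), (∀ v ∈ D, Cl G p r a e C v (P v)) ∧
      ((univ \ D).card : ℝ) ≤ ε * Fintype.card V

/-! ### Rows of the board `hz` with `PrW` -/

/-- (FNDW) `Pool.HZ7.FNDStmt` with `PrW p r` (`p ≥ 2`, `1 ≤ r ≤ p`, so `b ≥ 5`): copy the proof of the board `hz`, file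
`Pool/Agent/H*/HZ/FND.lean`, which uses no more than this (for `b = 5` check the constants). -/
def FNDWStmt : Prop :=
  ∀ p r : ℕ, PrW p r → ∀ C : ℝ, 0 < C → ∃ ε C₅ : ℝ, 0 < ε ∧ 0 < C₅ ∧ ∀ e : ℝ, 0 < e →
    e ≤ 1 / (8 * ((p : ℝ) + 3)) → ∃ a₀ : ℕ, ∀ a ≥ a₀, ∀ {V : Type} [Fintype V] [DecidableEq V]
    (G : SimpleGraph V), G8 G p r a → Nonempty V → ∀ (D : Finset V)
    (P : V → Fin (p + 3) → Finset V), (∀ v ∈ D, Cl G p r a e C v (P v)) →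
    ((univ \ D).card : ℝ) ≤ ε * Fintype.card V →
    ∃ κ : Fin (p + 4) → V, (∀ i j, i ≠ j → G.Adj (κ i) (κ j)) ∧ (∀ i, κ i ∈ D) ∧
      (∀ i, ((nb G univ (κ i) \ D).card : ℝ) ≤ 1 / 4 * a) ∧
      (∀ i l, i ≠ l → ∀ j, κ l ∈ P (κ i) j → ∀ k, k ≠ j →
        ((non G (P (κ i) k) (κ l)).card : ℝ) ≤ C₅)

/-- (COAW) `Pool.HZ7.COAStmt` with `PrW p r` (`p ≥ 2`, `1 ≤ r ≤ p`, so `b ≥ 5`): copy the proof of the board `hz`, file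
`Pool/Agent/H*/HZ/COA.lean`, which uses no more than this (for `b = 5` check the constants). -/
def COAWStmt : Prop :=
  ∀ p r : ℕ, PrW p r → ∀ C₅ : ℝ, 0 < C₅ → ∃ a₀ : ℕ, ∀ a ≥ a₀,
    ∀ {V : Type} [Fintype V] [DecidableEq V] (G : SimpleGraph V) (e C : ℝ) (D : Finset V)
    (κ : Fin (p + 4) → V) (A : Fin (p + 4) → Fin (p + 4) → Finset V), e ≤ 1 / 8 →
    Arr G p r a e C C₅ D κ A →
    (∀ i j k, i ≠ j → i ≠ k → j ≠ k → ((A i j \ A k j).card : ℝ) ≤ ((p : ℝ) + 3) * C₅) ∧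
    (∀ i j k l, j ≠ l → Disjoint (A i j) (A k l))

/-- (COBW) `Pool.HZ7.COBStmt` with `PrW p r` (`p ≥ 2`, `1 ≤ r ≤ p`, so `b ≥ 5`): copy the proof of the board `hz`, file
`Pool/Agent/H*/HZ/COB.lean`, which uses no more than this (for `b = 5` check the constants). Needs COAW. -/
def COBWStmt : Prop :=
  ∀ p r : ℕ, PrW p r → ∀ C₅ : ℝ, 0 < C₅ → ∃ a₀ : ℕ, ∀ a ≥ a₀,
    ∀ {V : Type} [Fintype V] [DecidableEq V] (G : SimpleGraph V) (e C : ℝ) (D : Finset V)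
    (P : V → Fin (p + 3) → Finset V) (κ : Fin (p + 4) → V)
    (A : Fin (p + 4) → Fin (p + 4) → Finset V), 0 < e → e ≤ 1 / 8 →
    (∀ v ∈ D, Cl G p r a e C v (P v)) → Arr G p r a e C C₅ D κ A →
    ∀ i j, ∀ z ∈ A i j, ∀ q, q ≠ j → ∀ l, l ≠ q →
      ((non G (A l q) z).card : ℝ) ≤ ((p : ℝ) + 4) * e1 p * a + ((p : ℝ) + 3) * C₅

/-- (CORW) `Pool.HZ7.CORStmt` with `PrW p r` (`p ≥ 2`, `1 ≤ r ≤ p`, so `b ≥ 5`): copy the proof of the board `hz`, file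
`Pool/Agent/H*/HZ/COR.lean`, which uses no more than this (for `b = 5` check the constants). Needs COAW, COBW, GRE. -/
def CORWStmt : Prop :=
  ∀ p r : ℕ, PrW p r → ∀ C C₅ : ℝ, 0 < C → 0 < C₅ → ∃ C₆ : ℝ, 0 < C₆ ∧ ∃ a₀ : ℕ, ∀ a ≥ a₀,
    ∀ {V : Type} [Fintype V] [DecidableEq V] (G : SimpleGraph V) (e : ℝ) (D : Finset V)
    (P : V → Fin (p + 3) → Finset V) (κ : Fin (p + 4) → V)
    (A : Fin (p + 4) → Fin (p + 4) → Finset V), G8 G p r a → 0 < e → e ≤ 1 / 8 →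
    (∀ v ∈ D, Cl G p r a e C v (P v)) → Arr G p r a e C C₅ D κ A →
    ∃ Q, Cor G p r a C₆ Q

/-- (EXPW) `Pool.HZ7.EXPStmt` with `PrW p r` (`p ≥ 2`, `1 ≤ r ≤ p`, so `b ≥ 5`): copy the proof of the board `hz`, file
`Pool/Agent/H*/HZ/EXP.lean`, which uses no more than this (for `b = 5` check the constants). Needs GRE. -/
def EXPWStmt : Prop :=
  ∀ p r : ℕ, PrW p r → ∀ C₆ : ℝ, 0 < C₆ → ∃ C : ℝ, 0 < C ∧ ∃ a₀ : ℕ, ∀ a ≥ a₀,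
    ∀ {V : Type} [Fintype V] [DecidableEq V] (G : SimpleGraph V) (Q : Fin (p + 4) → Finset V),
    G8 G p r a → Cor G p r a C₆ Q → ∃ Q', Blb G p r a C Q'

/-- (DLBW) `Pool.HZ7.DLBStmt` with `PrW p r` (`p ≥ 2`, `1 ≤ r ≤ p`, so `b ≥ 5`): copy the proof of the board `hz`, file
`Pool/Agent/H*/HZ/DLB.lean`, which uses no more than this (for `b = 5` check the constants). -/
def DLBWStmt : Prop :=
  ∀ p r : ℕ, PrW p r → ∀ C : ℝ, 0 < C → ∃ K : ℕ, ∀ a ≥ K,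
    ∀ {V : Type} [Fintype V] [DecidableEq V] (G : SimpleGraph V) (Q : Fin (p + 4) → Finset V),
    G8 G p r a → Blb G p r a C Q → ∃ (s : ℕ) (σ : Fin (p + 4) → ℕ), 1 ≤ s ∧ s ≤ K ∧
      (∀ j, σ j ≤ K) ∧ (∀ j, (Q j).card + σ j = a + s) ∧ ∑ j, σ j + r = (p + 3) * s ∧
      (un Q).card = (p + 3) * a + r + a + s ∧
      (∀ j, ∀ u ∈ Q j, ∑ k ∈ univ.erase j, (non G (Q k) u).card =
        σ j + dl G p r a (un Q) u) ∧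
      (∀ u ∈ un Q, (nb G (univ \ un Q) u).card ≤ dl G p r a (un Q) u) ∧
      (∀ u ∈ un Q, (dl G p r a (un Q) u : ℝ) ≤ a / 4) ∧
      ((∑ u ∈ un Q, dl G p r a (un Q) u : ℕ) : ℝ) ≤ C * a ∧
      Even (∑ j, (Q j).card * σ j + ∑ u ∈ un Q, dl G p r a (un Q) u)

/-- (CQBW) `Pool.HZ7.CQBStmt` with `PrW p r` (`p ≥ 2`, `1 ≤ r ≤ p`, so `b ≥ 5`): copy the proof of the board `hz`, file
`Pool/Agent/H*/HZ/CQB.lean`, which uses no more than this (for `b = 5` check the constants). Needs ZYG. -/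
def CQBWStmt : Prop :=
  ∀ p r : ℕ, PrW p r → ∀ C : ℝ, 0 < C → ∃ a₀ : ℕ, ∀ a ≥ a₀,
    ∀ {V : Type} [Fintype V] [DecidableEq V] (G : SimpleGraph V) (Q : Fin (p + 4) → Finset V),
    G8 G p r a → Blb G p r a C Q →
    (∀ u ∈ un Q, (nb G (univ \ un Q) u).card ≤ dl G p r a (un Q) u) →
    (∀ u ∈ un Q, (dl G p r a (un Q) u : ℝ) ≤ a / 4) →
    ((∑ u ∈ un Q, dl G p r a (un Q) u : ℕ) : ℝ) ≤ C * a →
    ∑ z ∈ un Q, (((nb G (univ \ un Q) z).card).choose 2 : ℝ) +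
        ∑ u ∈ un Q, ((dl G p r a (un Q) u : ℝ) * (dl G p r a (un Q) u - 1)) / 2 +
        ∑ q ∈ univ \ un Q, (kc G (nb G (un Q) q) 2 : ℝ) +
        (a / (400 * ((p : ℝ) + 5)) + C) * ∑ u ∈ un Q, (dl G p r a (un Q) u : ℝ) ≤
      ((p : ℝ) + 2) / 2 * a * ∑ u ∈ un Q, (dl G p r a (un Q) u : ℝ)

/-- (NS1W) `Pool.HZ7.NS1Stmt` with `PrW p r` (`p ≥ 2`, `1 ≤ r ≤ p`, so `b ≥ 5`): copy the proof of the board `hz`, file
`Pool/Agent/H*/HZ/NS1.lean`, which uses no more than this (for `b = 5` check the constants). -/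
def NS1WStmt : Prop :=
  ∀ p r : ℕ, PrW p r → ∃ a₀ : ℕ, ∀ a ≥ a₀, ∀ n σ : Fin (p + 4) → ℕ,
    (∀ j, n j + σ j = a + 1) → ∑ j, σ j + r = p + 3 →
    Psi p r a 1 n σ ≤ (TT (p + 4) 3 a (r + 1) : ℝ) -
      1 / 2 * (((p + 3 - r : ℕ) : ℝ) * a) * Xz p r a

/-- (NS2W) `Pool.HZ7.NS2Stmt` with `PrW p r` (`p ≥ 2`, `1 ≤ r ≤ p`, so `b ≥ 5`): copy the proof of the board `hz`, file
`Pool/Agent/H*/HZ/NS2.lean`, which uses no more than this (for `b = 5` check the constants). -/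
def NS2WStmt : Prop :=
  ∀ p r : ℕ, PrW p r → ∀ K : ℕ, ∃ a₀ : ℕ, ∀ a ≥ a₀, ∀ s, 2 ≤ s → s ≤ K →
    ∀ n σ : Fin (p + 4) → ℕ, (∀ j, n j + σ j = a + s) → (∀ j, σ j ≤ K) →
    ∑ j, σ j + r = (p + 3) * s →
    Psi p r a s n σ * ((((p + 3) * a + r + a + 1 : ℕ)) : ℝ) ≤
      kx p r a * ((((p + 3) * a + r + a + s : ℕ)) : ℝ)

/-- (NAVW) `Pool.HZ7.NAVStmt` with `PrW p r` (`p ≥ 2`, `1 ≤ r ≤ p`, so `b ≥ 5`): copy the proof of the board `hz`, file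
`Pool/Agent/H*/HZ/NAV.lean`, which uses no more than this (for `b = 5` check the constants). -/
def NAVWStmt : Prop :=
  ∀ p r : ℕ, PrW p r → ∃ K : ℝ, 0 < K ∧ ∃ a₀ : ℕ, ∀ a ≥ a₀, 0 < kx p r a ∧
    (TT (p + 3) 2 a r : ℝ) * ((((p + 3) * a + r + a + 1 : ℕ)) : ℝ) - 3 * kx p r a ≤
      (lz p r * a + K) * ((((p + 3) * a + r + a + 1 : ℕ)) : ℝ)

/-- (RFGW) `Pool.HZ7.RFGStmt` with `PrW p r` (`p ≥ 2`, `1 ≤ r ≤ p`, so `b ≥ 5`): copy the proof of the board `hz`, file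
`Pool/Agent/H*/HZ/RFG.lean`, which uses no more than this (for `b = 5` check the constants). Needs EST, TCT. -/
def RFGWStmt : Prop :=
  ∀ p r a : ℕ, PrW p r → 1 ≤ a → ∃ R : SimpleGraph (Fin ((p + 3) * a + r + a + 1)),
    (∀ v, (R.neighborSet v).ncard ≤ (p + 3) * a + r) ∧ R.CliqueFree (p + 5) ∧
    kx p r a ≤ ({s : Finset (Fin ((p + 3) * a + r + a + 1)) | R.IsNClique 3 s}.ncard : ℝ)

/-- (MANW) `Pool.HZ7.MANStmt` with `PrW p r` (`p ≥ 2`, `1 ≤ r ≤ p`, so `b ≥ 5`): copy the proof of the board `hz`, file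
`Pool/Agent/H*/HZ/MAN.lean`, which uses no more than this (for `b = 5` check the constants). Needs DLBW, KUB, CQBW, CQS, CRS, NS1W, NS2W. -/
def MANWStmt : Prop :=
  ∀ p r : ℕ, PrW p r → ∀ C : ℝ, 0 < C → ∃ a₀ : ℕ, ∀ a ≥ a₀,
    ∀ {V : Type} [Fintype V] [DecidableEq V] (G : SimpleGraph V) (Q : Fin (p + 4) → Finset V),
    G8 G p r a → Blb G p r a C Q →
    ((kc G univ 3 : ℝ) - kc G (univ \ un Q) 3) * ((((p + 3) * a + r + a + 1 : ℕ)) : ℝ) ≤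
      kx p r a * (un Q).card

/-! ### Assembly -/

/-- (BLG) `Pool.HZ7.BLKStmt` for `PrG`. Needs GCG (1), WGG, FNDW, ARR, CORW, EXPW, NAVW. -/
def BLGStmt : Prop :=
  ∀ p r : ℕ, PrG p r → ∃ C : ℝ, 0 < C ∧ ∃ a₀ : ℕ, ∀ a ≥ a₀,
    ∀ {V : Type} [Fintype V] [DecidableEq V] (G : SimpleGraph V), G8 G p r a → Nonempty V →
    kx p r a * Fintype.card V ≤ kc G univ 3 * ((((p + 3) * a + r + a + 1 : ℕ)) : ℝ) →
    ∃ Q, Blb G p r a C Q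

/-- (FNG) The theorem: `Pool.HZ7.FNZStmt` for `PrG`. Needs GCG (1), BLG, MANW, RFGW, NAVW. -/
def FNGStmt : Prop :=
  ∀ p r : ℕ, PrG p r → ∃ a₀ : ℕ, ∀ a ≥ a₀,
    ∃ R : SimpleGraph (Fin ((p + 3) * a + r + a + 1)),
      (∀ v, (R.neighborSet v).ncard ≤ (p + 3) * a + r) ∧ R.CliqueFree (p + 5) ∧
      ({s : Finset (Fin ((p + 3) * a + r + a + 1)) | R.IsNClique 3 s}.ncard : ℝ) = kx p r a ∧
      ∀ (m : ℕ) (H : SimpleGraph (Fin m)),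
        (∀ v, (H.neighborSet v).ncard ≤ (p + 3) * a + r) → H.CliqueFree (p + 5) →
        {s : Finset (Fin m) | H.IsNClique 3 s}.ncard * ((p + 3) * a + r + a + 1) ≤
          {s : Finset (Fin ((p + 3) * a + r + a + 1)) | R.IsNClique 3 s}.ncard * m

end Pool.JB7
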